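import Pool.Agent.H76.GL.Sym

/-!
# Lower bound for the exponential moment of the horizontal exit part
-/

open MeasureTheory ProbabilityTheory
open scoped ENNReal

namespace Pool.Agent.H76.GL

open Pool.Agent.H84.GL Pool.Agent.H99.NS

theorem measurable_exGh (lam : ℝ) (a b : ℕ) :
    Measurable (fun y : (ℕ → ℕ) × (ℕ × ℕ → ℕ) => ex (lam * (Gh y.1 y.2 0 a b : ℝ))) :=
  measurable_ex.comp
      (((measurable_nat (fun n : ℕ => (n : ℝ))).comp (measurable_Gh 0 a b)).const_mul lam)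

theorem meas_hor (f : (ℕ → ℕ) × (ℕ × ℕ → ℕ) → ℝ≥0∞) (hf : Measurable f) :
    Measurable (fun x : (ℕ → ℕ) × (ℕ → ℕ) × (ℕ × ℕ → ℕ) => f (x.1, x.2.2)) :=
  hf.comp (measurable_fst.prodMk (measurable_snd.comp measurable_snd))

theorem exGB_le (h_EXI : T_EXI) (lam : ℝ) (a : ℕ) (x : (ℕ → ℕ) × (ℕ → ℕ) × (ℕ × ℕ → ℕ)) :
    ex (lam * (GB x.1 x.2.1 x.2.2 (a+1) (a+1) : ℝ)) ≤
      ex (lam * (Gh x.1 x.2.2 0 a a : ℝ)) + ex (lam * (Gh x.2.1 (tr x.2.2) 0 a a : ℝ)) := by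
  rw [h_EXI]
  have e : Gv x.2.1 x.2.2 0 a a = Gh x.2.1 (tr x.2.2) 0 a a := rfl
  rw [e]
  rcases le_total (Gh x.1 x.2.2 0 a a) (Gh x.2.1 (tr x.2.2) 0 a a) with h | h
  · rw [max_eq_right h]; exact le_add_self
  · rw [max_eq_left h]; exact le_self_add

theorem lint_GB_le (h_EXI : T_EXI) (q al lam : ℝ) (a : ℕ) :
    ∫⁻ x, ex (lam * (GB x.1 x.2.1 x.2.2 (a+1) (a+1) : ℝ)) ∂(PB al al q) ≤
      2 * ∫⁻ y, ex (lam * (Gh y.1 y.2 0 a a : ℝ)) ∂(PW al q) := by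
  have hmeasG := measurable_exGh lam a a
  have i1 : ∫⁻ x, ex (lam * (Gh x.1 x.2.2 0 a a : ℝ)) ∂(PB al al q) =
      ∫⁻ y, ex (lam * (Gh y.1 y.2 0 a a : ℝ)) ∂(PW al q) := lint_hor al al q _ hmeasG
  have i2 : ∫⁻ x, ex (lam * (Gh x.2.1 (tr x.2.2) 0 a a : ℝ)) ∂(PB al al q) =
      ∫⁻ y, ex (lam * (Gh y.1 y.2 0 a a : ℝ)) ∂(PW al q) := lint_ver al al q _ hmeasG
  have hm1 : Measurable (fun x : (ℕ → ℕ) × (ℕ → ℕ) × (ℕ × ℕ → ℕ) =>
      ex (lam * (Gh x.1 x.2.2 0 a a : ℝ))) :=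
    meas_hor _ hmeasG
  refine le_trans (lintegral_mono (exGB_le h_EXI lam a)) ?_
  rw [lintegral_add_left hm1, i1, i2, two_mul]

theorem pf_MGS (h_MGF : T_MGF) (h_EXI : T_EXI) (h_PSL : T_PSL) : T_MGS := by
  intro q hq hq1
  set r := √q with hr
  have hr0 : 0 < r := Real.sqrt_pos.2 hq
  have hr1 : r < 1 := by
    rw [hr, Real.sqrt_lt' one_pos]; simpa using hq1
  have hrr : r ^ 2 = q := Real.sq_sqrt hq.le
  obtain ⟨c, hc, hpsl⟩ := h_PSL r hr0 hr1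
  have hlog : Real.log r < 0 := Real.log_neg hr0 hr1
  refine ⟨c, -(Real.log r) / 6, hc, by linarith, ?_⟩
  intro lam hlam hlam'
  have key : r * Real.exp (3 * lam) < 1 := by
    have : r * Real.exp (3 * lam) = Real.exp (Real.log r + 3 * lam) := by
      rw [Real.exp_add, Real.exp_log hr0]
    rw [this, Real.exp_lt_one_iff]
    linarith
  refine ⟨key, ?_⟩
  intro a
  have h2 : r * Real.exp (lam / 2) < 1 := by
    refine lt_of_le_of_lt ?_ key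
    apply mul_le_mul_of_nonneg_left _ hr0.le
    exact Real.exp_le_exp.2 (by linarith)
  have hqr : q / r = r := by rw [← hrr]; field_simp
  have hm := mgf_sym h_MGF q r lam hq hq1 hr0 hlam.le (by rw [hqr]; exact h2) h2 (a + 1) (a + 1)
  rw [hqr] at hm
  have hlow := hpsl lam hlam.le h2
  refine le_trans ?_ (lint_GB_le h_EXI q _ lam a)
  rw [hm]
  apply ex_mono
  push_cast
  have hmu : mu q = r / (1 - r) := by unfold mu; rw [← hr]
  rw [hmu]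
  have ha : (0 : ℝ) ≤ (a : ℝ) + 1 := by positivity
  have := mul_le_mul_of_nonneg_left hlow ha
  linarith

end Pool.Agent.H76.GL
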