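import Pool.Agent.H84.GL.Targets2
import Pool.Agent.H22.LPP.Prob

/-!
# Lower bound of the upper tail by independent blocks
-/

open MeasureTheory ProbabilityTheory
open scoped ENNReal

namespace Pool.Agent.H76.GL

open Pool.Agent.H84.GL Pool.Agent.H99.NS Pool.Agent.H22.LPP

theorem reach_axis {a b : ℕ} (h : a ≤ b) : Reach (((2 * a : ℕ) : ℤ), 0) (((2 * b : ℕ) : ℤ), 0) := by
  unfold Reach
  simp only [sub_self, abs_zero, add_zero]
  refine ⟨?_, ?_⟩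
  · push_cast; omega
  · refine ⟨(b : ℤ) - a, ?_⟩
    push_cast; ring

theorem sum_blocks (ω : Env) (m M : ℕ) :
    ∑ i ∈ Finset.range M, T ω (((2 * (m * i) : ℕ) : ℤ), 0) (((2 * (m * (i + 1)) : ℕ) : ℤ), 0) ≤
      T ω (0, 0) (((2 * (m * M) : ℕ) : ℤ), 0) := by
  induction M with
  | zero => simpa using T_nonneg ω _ _
  | succ k ih =>
    rw [Finset.sum_range_succ]
    have h1 := T_superadd ω (u := (((2 * 0 : ℕ) : ℤ), 0)) (reach_axis (Nat.zero_le (m * k)))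
      (reach_axis (Nat.mul_le_mul_left m (Nat.le_succ k)))
    have h0 : ((((2 * 0 : ℕ) : ℤ), 0) : Site) = (0, 0) := by simp
    rw [h0] at h1
    linarith

theorem pf_HW (h_BASE : D_BASE) : D_HW := by
  intro q hq hq1
  obtain ⟨c, p, hc, hp, n0, hbase⟩ := h_BASE q hq hq1
  have hmu : 0 < mu q := by
    unfold mu
    have h1 : 0 < √q := Real.sqrt_pos.2 hq
    have h2 : √q < 1 := by rw [Real.sqrt_lt' one_pos]; simpa using hq1
    exact div_pos h1 (by linarith)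
  have hp1 : p ≤ 1 := by
    have h := (hbase n0 le_rfl).trans prob_le_one
    rwa [ENNReal.ofReal_le_one] at h
  have hlogp : Real.log p ≤ 0 := Real.log_nonpos hp.le hp1
  set C' : ℝ := (4 / c) ^ ((3:ℝ)/2) + 2 with hC'
  refine ⟨max 1 (C' * (-Real.log p)), le_max_left _ _, ?_⟩
  intro K hK
  have hK0 : 0 < K := by linarith
  have hK32 : 1 ≤ K ^ ((3:ℝ)/2) := Real.one_le_rpow hK (by norm_num)
  set M : ℕ := ⌈(4 * K / c) ^ ((3:ℝ)/2)⌉₊ + 1 with hM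
  have hM1 : 1 ≤ M := by omega
  have hM0 : (0 : ℝ) < M := by exact_mod_cast hM1
  have hMlow : (4 * K / c) ^ ((3:ℝ)/2) ≤ (M : ℝ) := by
    rw [hM]; push_cast
    have := Nat.le_ceil ((4 * K / c) ^ ((3:ℝ)/2))
    linarith
  have hMup : (M : ℝ) ≤ C' * K ^ ((3:ℝ)/2) := by
    have h1 : 0 ≤ (4 * K / c) ^ ((3:ℝ)/2) := by positivity
    have h2 := Nat.ceil_lt_add_one h1
    have h3 : (4 * K / c) ^ ((3:ℝ)/2) = (4 / c) ^ ((3:ℝ)/2) * K ^ ((3:ℝ)/2) := by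
      rw [← Real.mul_rpow (by positivity) hK0.le]; congr 1; ring
    rw [hM]; push_cast
    rw [hC', add_mul, ← h3]
    linarith
  have hM23 : 4 * K / c ≤ (M : ℝ) ^ ((2:ℝ)/3) := by
    have h1 : ((4 * K / c) ^ ((3:ℝ)/2)) ^ ((2:ℝ)/3) = 4 * K / c := by
      rw [← Real.rpow_mul (by positivity)]; norm_num
    rw [← h1]
    exact Real.rpow_le_rpow (by positivity) hMlow (by norm_num)
  refine ⟨max (M * n0) (max (2 * M) ⌈(2 * mu q * M) ^ (3 : ℕ)⌉₊), ?_⟩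
  intro n hn
  have hna : M * n0 ≤ n := (le_max_left _ _).trans hn
  have hnb : 2 * M ≤ n := ((le_max_left _ _).trans (le_max_right _ _)).trans hn
  have hnc : (2 * mu q * M) ^ (3 : ℕ) ≤ (n : ℝ) :=
    (Nat.le_ceil _).trans (by exact_mod_cast ((le_max_right _ _).trans (le_max_right _ _)).trans hn)
  set n1 := n / M with hn1
  have hn1n0 : n0 ≤ n1 := (Nat.le_div_iff_mul_le (by omega)).2 (by rw [mul_comm]; exact hna)
  have hdiv : M * n1 + n % M = n := Nat.div_add_mod n M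
  have hmod : n % M < M := Nat.mod_lt n (by omega)
  have hdivR : (M : ℝ) * n1 + (n % M : ℕ) = n := by exact_mod_cast hdiv
  have hmodR : ((n % M : ℕ) : ℝ) ≤ M := by exact_mod_cast hmod.le
  have hnbR : 2 * (M : ℝ) ≤ n := by exact_mod_cast hnb
  -- the blocks
  set x : ℝ := mu q * (2 * n1) + c * ((2 * n1 : ℕ) : ℝ) ^ ((1:ℝ)/3) with hx
  set E : ℕ → Set Env := fun i => {ω | x ≤ T ω (((2 * (n1 * i) : ℕ) : ℤ), 0)
    (((2 * (n1 * (i + 1)) : ℕ) : ℤ), 0)} with hE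
  have hEm : ∀ i, MeasurableSet (E i) := fun i =>
    measurableSet_le measurable_const (measurable_T _ _)
  have hEp : ∀ i, ENNReal.ofReal p ≤ PE q (E i) := by
    intro i
    refine (hbase n1 hn1n0).trans (le_of_eq ?_)
    refine law_diff q (u := (0, 0)) (v := (((2 * n1 : ℕ) : ℤ), 0))
      (u' := (((2 * (n1 * i) : ℕ) : ℤ), 0)) (v' := (((2 * (n1 * (i + 1)) : ℕ) : ℤ), 0)) ?_
      (Set.Ici x) measurableSet_Ici
    refine Prod.ext ?_ ?_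
    · simp only [Prod.fst_sub]; push_cast; ring
    · simp
  have hdep : ∀ i, DepOn (slab ((2 * (n1 * i) : ℕ) : ℤ) ((2 * (n1 * (i + 1)) : ℕ) : ℤ))
      (fun ω => ω ∈ E i) := by
    intro i ω ω' h
    have h1 := depOn_T_slab (u := (((2 * (n1 * i) : ℕ) : ℤ), 0))
      (v := (((2 * (n1 * (i + 1)) : ℕ) : ℤ), 0)) le_rfl le_rfl ω ω' h
    simp only [hE, Set.mem_ofPred_eq]
    simp only at h1
    rw [h1]
  have hdis : ∀ i ∈ Finset.range M, ∀ j ∈ Finset.range M, i ≠ j →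
      Disjoint (slab ((2 * (n1 * i) : ℕ) : ℤ) ((2 * (n1 * (i + 1)) : ℕ) : ℤ))
        (slab ((2 * (n1 * j) : ℕ) : ℤ) ((2 * (n1 * (j + 1)) : ℕ) : ℤ)) := by
    intro i _ j _ hij
    rcases lt_or_gt_of_ne hij with h | h
    · apply slab_disjoint
      exact_mod_cast Nat.mul_le_mul_left 2 (Nat.mul_le_mul_left n1 h)
    · apply Disjoint.symm
      apply slab_disjoint
      exact_mod_cast Nat.mul_le_mul_left 2 (Nat.mul_le_mul_left n1 h)
  have hprod := measure_biInter_of_depOn q (Finset.range M)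
    (fun i => slab ((2 * (n1 * i) : ℕ) : ℤ) ((2 * (n1 * (i + 1)) : ℕ) : ℤ)) E
    (fun i _ => hEm i) (fun i _ => hdep i) hdis
  have hlow : ENNReal.ofReal p ^ M ≤ PE q (⋂ i ∈ Finset.range M, E i) := by
    rw [hprod]
    calc ENNReal.ofReal p ^ M = ∏ _i ∈ Finset.range M, ENNReal.ofReal p := by simp
      _ ≤ ∏ i ∈ Finset.range M, PE q (E i) := Finset.prod_le_prod' fun i _ => hEp i
  have hexp : ENNReal.ofReal (Real.exp (-(max 1 (C' * (-Real.log p)) * K ^ ((3:ℝ)/2)))) ≤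
      ENNReal.ofReal p ^ M := by
    rw [← ENNReal.ofReal_pow hp.le]
    apply ENNReal.ofReal_le_ofReal
    have h1 : p ^ M = Real.exp (M * Real.log p) := by
      rw [Real.exp_nat_mul, Real.exp_log hp]
    rw [h1, Real.exp_le_exp]
    have h2 : C' * (-Real.log p) * K ^ ((3:ℝ)/2) ≤
        max 1 (C' * (-Real.log p)) * K ^ ((3:ℝ)/2) :=
      mul_le_mul_of_nonneg_right (le_max_right _ _) (by positivity)
    have h3 : (M : ℝ) * (-Real.log p) ≤ C' * K ^ ((3:ℝ)/2) * (-Real.log p) :=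
      mul_le_mul_of_nonneg_right hMup (by linarith)
    nlinarith
  refine hexp.trans (hlow.trans (measure_mono ?_))
  intro ω hω
  simp only [Set.mem_iInter, Finset.mem_range] at hω
  simp only [Set.mem_ofPred_eq]
  have hsum : (M : ℝ) * x ≤ T ω (0, 0) (((2 * (n1 * M) : ℕ) : ℤ), 0) := by
    refine le_trans ?_ (sum_blocks ω n1 M)
    calc (M : ℝ) * x = ∑ _i ∈ Finset.range M, x := by simp
      _ ≤ _ := Finset.sum_le_sum fun i hi => hω i (Finset.mem_range.1 hi)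
  have hn1M : n1 * M ≤ n := Nat.div_mul_le_self n M
  have hlast : T ω (0, 0) (((2 * (n1 * M) : ℕ) : ℤ), 0) ≤ T ω (0, 0) (((2 * n : ℕ) : ℤ), 0) := by
    have h1 := T_superadd ω (u := (((2 * 0 : ℕ) : ℤ), 0)) (reach_axis (Nat.zero_le (n1 * M)))
      (reach_axis hn1M)
    have h0 : ((((2 * 0 : ℕ) : ℤ), 0) : Site) = (0, 0) := by simp
    rw [h0] at h1
    have h2 := T_nonneg ω (((2 * (n1 * M) : ℕ) : ℤ), 0) (((2 * n : ℕ) : ℤ), 0)
    linarith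
  refine le_trans ?_ (hsum.trans hlast)
  -- numerics
  have hn0R : (0 : ℝ) ≤ n := Nat.cast_nonneg n
  have hn1R : (n : ℝ) / M ≤ ((2 * n1 : ℕ) : ℝ) := by
    rw [div_le_iff₀ hM0]; push_cast; nlinarith
  have a1 : ((n : ℝ) / M) ^ ((1:ℝ)/3) ≤ ((2 * n1 : ℕ) : ℝ) ^ ((1:ℝ)/3) :=
    Real.rpow_le_rpow (by positivity) hn1R (by norm_num)
  have a2 : (M : ℝ) * ((n : ℝ) / M) ^ ((1:ℝ)/3) = (M : ℝ) ^ ((2:ℝ)/3) * (n : ℝ) ^ ((1:ℝ)/3) := by
    rw [Real.div_rpow hn0R hM0.le]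
    have e : (M : ℝ) = (M : ℝ) ^ ((2:ℝ)/3) * (M : ℝ) ^ ((1:ℝ)/3) := by
      rw [← Real.rpow_add hM0]; norm_num
    have h0 : (M : ℝ) ^ ((1:ℝ)/3) ≠ 0 := by positivity
    field_simp
    linear_combination (n : ℝ) ^ ((1:ℝ)/3) * e
  have a3 : 4 * K * (n : ℝ) ^ ((1:ℝ)/3) ≤ M * (c * ((2 * n1 : ℕ) : ℝ) ^ ((1:ℝ)/3)) := by
    have h1 : 4 * K ≤ (M : ℝ) ^ ((2:ℝ)/3) * c := by
      rwa [div_le_iff₀ hc] at hM23
    calc 4 * K * (n : ℝ) ^ ((1:ℝ)/3) ≤ (M : ℝ) ^ ((2:ℝ)/3) * c * (n : ℝ) ^ ((1:ℝ)/3) :=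
          mul_le_mul_of_nonneg_right h1 (by positivity)
      _ = c * (M * ((n : ℝ) / M) ^ ((1:ℝ)/3)) := by rw [a2]; ring
      _ ≤ c * (M * ((2 * n1 : ℕ) : ℝ) ^ ((1:ℝ)/3)) := by gcongr
      _ = _ := by ring
  have a4 : ((2 * n : ℕ) : ℝ) ^ ((1:ℝ)/3) ≤ 2 * (n : ℝ) ^ ((1:ℝ)/3) := by
    push_cast
    rw [Real.mul_rpow (by norm_num) hn0R]
    apply mul_le_mul_of_nonneg_right _ (by positivity)
    calc (2:ℝ) ^ ((1:ℝ)/3) ≤ (2:ℝ) ^ (1:ℝ) :=
          Real.rpow_le_rpow_of_exponent_le (by norm_num) (by norm_num)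
      _ = 2 := by norm_num
  have a5 : 2 * mu q * M ≤ (n : ℝ) ^ ((1:ℝ)/3) := by
    have h0 : 0 ≤ 2 * mu q * M := by positivity
    have h1 : ((2 * mu q * M) ^ (3 : ℕ)) ^ ((1:ℝ)/3) = 2 * mu q * M := by
      rw [← Real.rpow_natCast, ← Real.rpow_mul h0]; norm_num
    rw [← h1]
    exact Real.rpow_le_rpow (by positivity) hnc (by norm_num)
  have a6 : mu q * (2 * n) - 2 * mu q * M ≤ M * (mu q * (2 * n1)) := by
    nlinarith
  have a7 : 0 ≤ (n : ℝ) ^ ((1:ℝ)/3) := by positivity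
  have a8 : K * ((2 * n : ℕ) : ℝ) ^ ((1:ℝ)/3) ≤ K * (2 * (n : ℝ) ^ ((1:ℝ)/3)) :=
    mul_le_mul_of_nonneg_left a4 hK0.le
  have a9 : (n : ℝ) ^ ((1:ℝ)/3) ≤ K * (n : ℝ) ^ ((1:ℝ)/3) := by nlinarith
  rw [hx, mul_add]
  linarith

end Pool.Agent.H76.GL
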