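import Pool.Agent.H76.GL.Sym

/-!
# Upper bound for the moment generating function of the bulk model
-/

open MeasureTheory ProbabilityTheory
open scoped ENNReal

namespace Pool.Agent.H76.GL

open Pool.Agent.H84.GL Pool.Agent.H99.NS

theorem pf_UMQ (h_MGF : T_MGF) (h_EXI : T_EXI) (h_PSI : T_PSI) (h_PAR : T_PAR) : T_UMQ := by
  intro q hq hq1
  set r := √q with hr
  have hr0 : 0 < r := Real.sqrt_pos.2 hq
  have hr1 : r < 1 := by
    rw [hr, Real.sqrt_lt' one_pos]; simpa using hq1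
  have hrr : r ^ 2 = q := Real.sq_sqrt hq.le
  set b1 := max (2 * r / (1 + r)) ((1 + r) / 2) with hb1
  have hb10 : 0 < b1 := lt_max_of_lt_right (by linarith)
  have hb11 : b1 < 1 := by
    apply max_lt
    · rw [div_lt_one (by linarith)]; linarith
    · linarith
  obtain ⟨C0, l0, hC0, hl0, hpsi⟩ := h_PSI b1 hb10 hb11
  have h1b : 0 < 1 - b1 := by linarith
  refine ⟨3 * C0 + 2 * b1 / (1 - b1), l0, by positivity, hl0, ?_⟩
  intro lam hlam hlam' a b hab
  have hN : (1 : ℝ) ≤ (a : ℝ) + b := by exact_mod_cast hab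
  set N : ℝ := (a : ℝ) + b with hNdef
  set x : ℝ := ((a : ℝ) - b) / N with hx
  have hN0 : 0 < N := by linarith
  have ha0 : (0 : ℝ) ≤ a := Nat.cast_nonneg a
  have hb0 : (0 : ℝ) ≤ b := Nat.cast_nonneg b
  have hx1 : -1 ≤ x := by rw [hx, le_div_iff₀ hN0]; linarith
  have hx2 : x ≤ 1 := by rw [hx, div_le_iff₀ hN0]; linarith
  obtain ⟨k1, k2, k3⟩ := h_PAR r x N hr0 hr1 hx1 hx2 hN0.le
  set al := r * (1 - x * (1 - r) / (1 + r)) with hal
  have hal1 : al ≤ 2 * r / (1 + r) := by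
    have : 2 * r / (1 + r) = r * (1 - (-1) * (1 - r) / (1 + r)) := by field_simp; ring
    rw [this, hal]
    apply mul_le_mul_of_nonneg_left _ hr0.le
    have : (-1) * (1 - r) / (1 + r) ≤ x * (1 - r) / (1 + r) := by
      apply div_le_div_of_nonneg_right _ (by linarith)
      exact mul_le_mul_of_nonneg_right hx1 (by linarith)
    linarith
  have hal2 : 2 * r ^ 2 / (1 + r) ≤ al := by
    have : 2 * r ^ 2 / (1 + r) = r * (1 - 1 * (1 - r) / (1 + r)) := by field_simp; ring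
    rw [this, hal]
    apply mul_le_mul_of_nonneg_left _ hr0.le
    have : x * (1 - r) / (1 + r) ≤ 1 * (1 - r) / (1 + r) := by
      apply div_le_div_of_nonneg_right _ (by linarith)
      exact mul_le_mul_of_nonneg_right hx2 (by linarith)
    linarith
  have hal0 : 0 < al := lt_trans (by positivity) k1
  have hqal : q / al ≤ (1 + r) / 2 := by
    rw [div_le_iff₀ hal0, ← hrr]
    have : (1 + r) / 2 * (2 * r ^ 2 / (1 + r)) ≤ (1 + r) / 2 * al :=
      mul_le_mul_of_nonneg_left hal2 (by linarith)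
    have e : (1 + r) / 2 * (2 * r ^ 2 / (1 + r)) = r ^ 2 := by field_simp
    linarith
  have hqal0 : 0 < q / al := div_pos hq hal0
  have hba : al ≤ b1 := le_trans hal1 (le_max_left _ _)
  have hbq : q / al ≤ b1 := le_trans hqal (le_max_right _ _)
  obtain ⟨u1, u2⟩ := hpsi al lam hal0 hba hlam hlam'
  obtain ⟨v1, v2⟩ := hpsi (q / al) lam hqal0 hbq hlam hlam'
  have hm := mgf_sym h_MGF q al lam hq hq1 hal0 hlam v1 u1 (a + 1) (b + 1)
  have hmeas : Measurable (fun W : ℕ × ℕ → ℕ => ex (lam * (LB W a b : ℝ))) :=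
    measurable_ex.comp
      (((measurable_nat (fun n : ℕ => (n : ℝ))).comp (measurable_LB a b)).const_mul lam)
  rw [← lint_bulk (al * Real.exp (-(lam / 2))) (q / al * Real.exp (-(lam / 2))) q _ hmeas]
  refine le_trans (lintegral_mono (g := fun x => ex (lam * (GB x.1 x.2.1 x.2.2 (a+1) (b+1) : ℝ)))
    fun y => ?_) ?_
  · apply ex_mono
    apply mul_le_mul_of_nonneg_left _ hlam
    have : LB y.2.2 a b ≤ GB y.1 y.2.1 y.2.2 (a+1) (b+1) := by
      rw [h_EXI]
      exact le_trans (LB_le_Gh y.1 y.2.2 a b) (le_max_left _ _)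
    exact_mod_cast this
  rw [hm]
  apply ex_mono
  have e1 : (1 + x) / 2 * N = a := by
    rw [hx]; field_simp; rw [hNdef]; ring
  have e2 : (1 - x) / 2 * N = b := by
    rw [hx]; field_simp; rw [hNdef]; ring
  have e3 : x ^ 2 * N = (a - b) ^ 2 / N := by
    rw [hx]; field_simp
  rw [e1, e2] at k3
  have e4 : r / (1 - r) * N - r / (1 - r ^ 2) / 2 * x ^ 2 * N = pq q a b := by
    unfold pq mu sg
    rw [← hr, mul_assoc (r / (1 - r ^ 2) / 2), e3, hrr, hNdef]
    ring
  rw [e4] at k3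
  have hqalpos : 0 < al - r ^ 2 := by linarith
  have e5 : q / al / (1 - q / al) = r ^ 2 / (al - r ^ 2) := by
    rw [← hrr]; rw [← hrr] at hqal0
    have : al - r ^ 2 ≠ 0 := hqalpos.ne'
    rw [div_div, mul_sub, mul_one, mul_div_cancel₀ _ hal0.ne']
  have e6 : al / (1 - al) ≤ b1 / (1 - b1) := by
    rw [div_le_div_iff₀ (by linarith) h1b]; nlinarith
  have e7 : r ^ 2 / (al - r ^ 2) ≤ b1 / (1 - b1) := by
    rw [← e5, div_le_div_iff₀ (by linarith) h1b]; nlinarith
  rw [e5] at v2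
  have hl3 : 0 ≤ lam ^ 3 := by positivity
  set A := al / (1 - al)
  set B := r ^ 2 / (al - r ^ 2)
  push_cast
  have m1 : ((a : ℝ) + 1) * Real.log ((1 - al * Real.exp (-(lam / 2))) / (1 - al * Real.exp (lam / 2)))
      ≤ ((a : ℝ) + 1) * (lam * A + C0 * lam ^ 3) := mul_le_mul_of_nonneg_left u2 (by linarith)
  have m2 : ((b : ℝ) + 1) * Real.log ((1 - q / al * Real.exp (-(lam / 2))) /
      (1 - q / al * Real.exp (lam / 2)))
      ≤ ((b : ℝ) + 1) * (lam * B + C0 * lam ^ 3) := mul_le_mul_of_nonneg_left v2 (by linarith)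
  have m3 : lam * (a * A + b * B) ≤ lam * pq q a b := mul_le_mul_of_nonneg_left k3 hlam
  have m4 : lam * (A + B) ≤ lam * (2 * b1 / (1 - b1)) := by
    apply mul_le_mul_of_nonneg_left _ hlam
    have : 2 * b1 / (1 - b1) = b1 / (1 - b1) + b1 / (1 - b1) := by ring
    linarith
  have m5 : C0 * lam ^ 3 * (N + 2) ≤ C0 * lam ^ 3 * (3 * N) :=
    mul_le_mul_of_nonneg_left (by linarith) (by positivity)
  have m6 : 0 ≤ 2 * b1 / (1 - b1) * (N * lam ^ 3) := by positivity
  have m7 : 0 ≤ 3 * C0 * lam := by positivity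
  calc _ ≤ ((a : ℝ) + 1) * (lam * A + C0 * lam ^ 3) + ((b : ℝ) + 1) * (lam * B + C0 * lam ^ 3) :=
        add_le_add m1 m2
    _ = lam * (a * A + b * B) + lam * (A + B) + C0 * lam ^ 3 * (N + 2) := by rw [hNdef]; ring
    _ ≤ lam * pq q a b + lam * (2 * b1 / (1 - b1)) + C0 * lam ^ 3 * (3 * N) := by linarith
    _ ≤ lam * pq q a b + (3 * C0 + 2 * b1 / (1 - b1)) * (N * lam ^ 3 + lam) := by nlinarith

end Pool.Agent.H76.GL
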