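import Pool.Agent.H84.GL.Basic

/-!
# The symmetric form of the exact moment generating function
-/

open MeasureTheory ProbabilityTheory
open scoped ENNReal

namespace Pool.Agent.H76.GL

open Pool.Agent.H84.GL Pool.Agent.H99.NS

theorem lint_bulk (α β q : ℝ) (f : (ℕ × ℕ → ℕ) → ℝ≥0∞) (hf : Measurable f) :
    ∫⁻ x, f x.2.2 ∂(PB α β q) = ∫⁻ W, f W ∂(P2 q) := by
  have h1 : MeasurePreserving (Prod.snd : (ℕ → ℕ) × (ℕ × ℕ → ℕ) → (ℕ × ℕ → ℕ))
      ((P1 β).prod (P2 q)) (P2 q) := measurePreserving_snd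
  have h2 : MeasurePreserving
      (Prod.snd : (ℕ → ℕ) × (ℕ → ℕ) × (ℕ × ℕ → ℕ) → (ℕ → ℕ) × (ℕ × ℕ → ℕ))
      ((P1 α).prod ((P1 β).prod (P2 q))) ((P1 β).prod (P2 q)) := measurePreserving_snd
  exact (h1.comp h2).lintegral_comp hf

theorem lint_hor (α β q : ℝ) (f : (ℕ → ℕ) × (ℕ × ℕ → ℕ) → ℝ≥0∞) (hf : Measurable f) :
    ∫⁻ x, f (x.1, x.2.2) ∂(PB α β q) = ∫⁻ y, f y ∂(PW α q) := by
  have h1 : MeasurePreserving (Prod.snd : (ℕ → ℕ) × (ℕ × ℕ → ℕ) → (ℕ × ℕ → ℕ))
      ((P1 β).prod (P2 q)) (P2 q) := measurePreserving_snd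
  have h2 : MeasurePreserving (Prod.map id Prod.snd :
      (ℕ → ℕ) × (ℕ → ℕ) × (ℕ × ℕ → ℕ) → (ℕ → ℕ) × (ℕ × ℕ → ℕ))
      ((P1 α).prod ((P1 β).prod (P2 q))) ((P1 α).prod (P2 q)) :=
    (MeasurePreserving.id (P1 α)).prod h1
  exact h2.lintegral_comp hf

theorem lint_ver (α β q : ℝ) (f : (ℕ → ℕ) × (ℕ × ℕ → ℕ) → ℝ≥0∞) (hf : Measurable f) :
    ∫⁻ x, f (x.2.1, tr x.2.2) ∂(PB α β q) = ∫⁻ y, f y ∂(PW β q) := by
  have h1 : MeasurePreserving
      (Prod.snd : (ℕ → ℕ) × (ℕ → ℕ) × (ℕ × ℕ → ℕ) → (ℕ → ℕ) × (ℕ × ℕ → ℕ))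
      ((P1 α).prod ((P1 β).prod (P2 q))) ((P1 β).prod (P2 q)) := measurePreserving_snd
  have h2 : MeasurePreserving tr (P2 q) (P2 q) := ⟨measurable_tr, map_tr q⟩
  have h3 : MeasurePreserving (Prod.map id tr : (ℕ → ℕ) × (ℕ × ℕ → ℕ) → (ℕ → ℕ) × (ℕ × ℕ → ℕ))
      ((P1 β).prod (P2 q)) ((P1 β).prod (P2 q)) := (MeasurePreserving.id (P1 β)).prod h2
  exact (h3.comp h1).lintegral_comp hf

/-- The exact exponential moment for symmetric tilts. -/
theorem mgf_sym (h : T_MGF) (q al lam : ℝ) (hq : 0 < q) (hq1 : q < 1) (hal : 0 < al)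
    (hl : 0 ≤ lam) (h1 : q / al * Real.exp (lam / 2) < 1) (h2 : al * Real.exp (lam / 2) < 1)
    (a b : ℕ) :
    ∫⁻ x, ex (lam * (GB x.1 x.2.1 x.2.2 a b : ℝ))
        ∂(PB (al * Real.exp (-(lam / 2))) (q / al * Real.exp (-(lam / 2))) q) =
      ex (a * Real.log ((1 - al * Real.exp (-(lam / 2))) / (1 - al * Real.exp (lam / 2))) +
        b * Real.log ((1 - q / al * Real.exp (-(lam / 2))) /
          (1 - q / al * Real.exp (lam / 2)))) := by
  have he : 0 < Real.exp (lam / 2) := Real.exp_pos _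
  have he' : 0 < Real.exp (-(lam / 2)) := Real.exp_pos _
  have hee : Real.exp (-(lam / 2)) * Real.exp (lam / 2) = 1 := by
    rw [← Real.exp_add]; simp
  have hge : 1 ≤ Real.exp (lam / 2) := Real.one_le_exp (by linarith)
  have hle : Real.exp (-(lam / 2)) ≤ 1 := Real.exp_le_one_iff.2 (by linarith)
  have hqa : 0 < q / al := div_pos hq hal
  have e1 : q < al * Real.exp (-(lam / 2)) := by
    have h3 : q * Real.exp (lam / 2) < al := by
      rw [div_mul_eq_mul_div, div_lt_one hal] at h1; exact h1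
    calc q = q * Real.exp (lam / 2) * Real.exp (-(lam / 2)) := by
            rw [mul_assoc, mul_comm (Real.exp (lam / 2)), hee, mul_one]
      _ < al * Real.exp (-(lam / 2)) := by
            exact mul_lt_mul_of_pos_right h3 he'
  have e2 : al * Real.exp (-(lam / 2)) < 1 := by
    calc al * Real.exp (-(lam / 2)) ≤ al * Real.exp (lam / 2) := by
          apply mul_le_mul_of_nonneg_left _ hal.le; linarith
      _ < 1 := h2
  have e3 : q < al * Real.exp (lam / 2) := by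
    calc q < al * Real.exp (-(lam / 2)) := e1
      _ ≤ al * Real.exp (lam / 2) := by
          apply mul_le_mul_of_nonneg_left _ hal.le; linarith
  have e4 : q / al * Real.exp (-(lam / 2)) < 1 := by
    calc q / al * Real.exp (-(lam / 2)) ≤ q / al * Real.exp (lam / 2) := by
          apply mul_le_mul_of_nonneg_left _ hqa.le; linarith
      _ < 1 := h1
  have hm := h q (al * Real.exp (-(lam / 2))) (al * Real.exp (lam / 2)) hq hq1 e1 e2 e3 h2 a b
  have f1 : al * Real.exp (lam / 2) / (al * Real.exp (-(lam / 2))) = Real.exp lam := by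
    rw [mul_div_mul_left _ _ hal.ne', ← Real.exp_sub]; congr 1; ring
  have f2 : q / (al * Real.exp (lam / 2)) = q / al * Real.exp (-(lam / 2)) := by
    rw [Real.exp_neg]; field_simp
  have f3 : q / (al * Real.exp (-(lam / 2))) = q / al * Real.exp (lam / 2) := by
    rw [Real.exp_neg]; field_simp
  rw [f1, f2, f3] at hm
  have g1 : ∀ n : ℕ, ENNReal.ofReal (Real.exp lam ^ n) = ex (lam * (n : ℝ)) := by
    intro n
    unfold ex
    rw [← Real.exp_nat_mul, mul_comm]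
  simp only [g1] at hm
  rw [hm]
  unfold ex
  congr 1
  have p1 : 0 < (1 - al * Real.exp (-(lam / 2))) / (1 - al * Real.exp (lam / 2)) :=
    div_pos (by linarith) (by linarith)
  have p2 : 0 < (1 - q / al * Real.exp (-(lam / 2))) / (1 - q / al * Real.exp (lam / 2)) :=
    div_pos (by linarith) (by linarith)
  rw [Real.exp_add, Real.exp_nat_mul, Real.exp_nat_mul, Real.exp_log p1, Real.exp_log p2]

end Pool.Agent.H76.GL
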